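import Pool.Agent.H72.BF.Targets2

/-! Modules KK and CLR of the board bf_modules (helper57). -/

open Finset Filter

namespace Pool.Agent.H57.BF

open Pool.Agent.H72.BF

theorem kk : T_KK := by
  classical
  intro H P x hx
  refine Subfield.closure_induction
    (p := fun x _ => ∃ a b : ℕ → ℤ, P.Bd a ∧ P.Bd b ∧ (∀ j, b j ≠ 0) ∧ x * P.evZ b = P.evZ a)
    ?_ ?_ ?_ ?_ ?_ ?_ hx
  · rintro x ⟨z, hz, rfl⟩
    refine ⟨z, fun _ => 1, hz, P.bd_const 1, fun _ => one_ne_zero, ?_⟩
    rw [P.evZ_const]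
    simp
  · refine ⟨fun _ => 1, fun _ => 1, P.bd_const 1, P.bd_const 1, fun _ => one_ne_zero, ?_⟩
    simp
  · rintro x y _ _ ⟨a, b, ha, hb, hb0, hab⟩ ⟨a', b', ha', hb', hb0', hab'⟩
    refine ⟨fun j => a j * b' j + a' j * b j, fun j => b j * b' j,
      Pkg.Bd.add (ha.mul hb') (ha'.mul hb), hb.mul hb', fun j => mul_ne_zero (hb0 j) (hb0' j), ?_⟩
    rw [P.evZ_add (ha.mul hb') (ha'.mul hb), P.evZ_mul ha hb', P.evZ_mul ha' hb,
      P.evZ_mul hb hb', ← hab, ← hab']
    ring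
  · rintro x _ ⟨a, b, ha, hb, hb0, hab⟩
    refine ⟨fun j => -a j, b, ha.neg, hb, hb0, ?_⟩
    have h1 : P.evZ (fun j => -a j) = - P.evZ a := by
      have h2 := P.evZ_mul (P.bd_const (-1)) ha
      rw [P.evZ_const] at h2
      have h3 : (fun j => -a j) = fun j => (-1 : ℤ) * a j := by
        funext j
        ring
      rw [h3, h2]
      push_cast
      ring
    rw [h1, ← hab]
    ring
  · rintro x _ ⟨a, b, ha, hb, hb0, hab⟩
    by_cases hx0 : x = 0
    · refine ⟨fun _ => 0, fun _ => 1, P.bd_const 0, P.bd_const 1, fun _ => one_ne_zero, ?_⟩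
      rw [P.evZ_const, P.evZ_const, hx0]
      simp
    · have hb1 := P.evZ_ne_zero hb hb0
      have ha1 : P.evZ a ≠ 0 := by
        rw [← hab]
        exact mul_ne_zero hx0 hb1
      have hev := P.evZ_dich ha ha1
      set a' : ℕ → ℤ := fun j => if a j = 0 then 1 else a j with ha'
      have hcongr := P.ev_congr (z := fun j => (a j : ℂ)) (w := fun j => (a' j : ℂ)) ha (by
        filter_upwards [hev] with j hj
        simp [ha', hj])
      refine ⟨b, a', hb, hcongr.2, fun j => ?_, ?_⟩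
      · simp only [ha']
        split_ifs with h
        · exact one_ne_zero
        · exact h
      · have h4 : P.evZ a' = P.evZ a := hcongr.1.symm
        rw [h4, ← hab, ← mul_assoc, inv_mul_cancel₀ hx0, one_mul]
  · rintro x y _ _ ⟨a, b, ha, hb, hb0, hab⟩ ⟨a', b', ha', hb', hb0', hab'⟩
    refine ⟨fun j => a j * a' j, fun j => b j * b' j, ha.mul ha', hb.mul hb',
      fun j => mul_ne_zero (hb0 j) (hb0' j), ?_⟩
    rw [P.evZ_mul ha ha', P.evZ_mul hb hb', ← hab, ← hab']
    ring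

theorem clr : T_CLR := by
  classical
  intro H P ι _ r
  have h1 : ∀ i, ∃ a b : ℕ → ℤ, P.Bd a ∧ P.Bd b ∧ (∀ j, b j ≠ 0) ∧
      (r i : P.F) * P.evZ b = P.evZ a := fun i => kk H P (r i) (r i).2
  choose a b ha hb hb0 hab using h1
  have hprod : ∀ s : Finset ι, P.Bd (fun j => ∏ i ∈ s, b i j) ∧
      P.evZ (fun j => ∏ i ∈ s, b i j) = ∏ i ∈ s, P.evZ (b i) := by
    intro s
    induction s using Finset.induction_on with
    | empty =>
      refine ⟨?_, ?_⟩
      · simpa using P.bd_const 1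
      · simpa using P.evZ_const 1
    | insert i s hi ih =>
      simp only [Finset.prod_insert hi]
      refine ⟨(hb i).mul ih.1, ?_⟩
      rw [P.evZ_mul (hb i) ih.1, ih.2]
  set R0 : ι → ℕ → ℤ := fun i j => a i j * ∏ i' ∈ univ.erase i, b i' j with hR0
  have hR0b : ∀ i, P.Bd (R0 i) := fun i => (ha i).mul (hprod _).1
  have hR0e : ∀ i, (r i : P.F) * P.evZ (fun j => ∏ i ∈ univ, b i j) = P.evZ (R0 i) := by
    intro i
    rw [(hprod _).2, hR0]
    simp only
    rw [P.evZ_mul (ha i) (hprod _).1, (hprod _).2, ← hab, ← Finset.mul_prod_erase univ _ (mem_univ i)]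
    ring
  have hc : ∀ i, ∃ c : ℕ, ∀ᶠ j in (hyperfilter ℕ : Filter ℕ), ‖((R0 i j : ℤ) : ℂ)‖ ≤ H j ^ c :=
    fun i => (P.memO _).1 (hR0b i)
  choose c hc using hc
  set R : ι → ℕ → ℤ := fun i j => if |(R0 i j : ℝ)| ≤ H j ^ c i then R0 i j else 0 with hR
  refine ⟨fun j => ∏ i ∈ univ, b i j, R, ∑ i, c i, (hprod _).1, ?_, ?_, ?_⟩
  · intro j
    exact Finset.prod_ne_zero_iff.2 fun i _ => hb0 i j
  · intro i j
    have h2 : H j ^ c i ≤ H j ^ ∑ i, c i :=
      pow_le_pow_right₀ (by linarith [P.hH j])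
        (Finset.single_le_sum (fun i _ => Nat.zero_le (c i)) (mem_univ i))
    have h3 : (0 : ℝ) ≤ H j ^ c i := pow_nonneg (P.pos j).le _
    simp only [hR]
    split_ifs with h
    · exact h.trans h2
    · simpa using h3.trans h2
  · intro i
    rw [hR0e i]
    refine (P.ev_congr (hR0b i) ?_).1
    filter_upwards [hc i] with j hj
    rw [Complex.norm_intCast] at hj
    simp only [hR]
    rw [if_pos hj]

end Pool.Agent.H57.BF
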