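import Pool.Agent.H72.BF.Targets2

/-! Module SUMA of the board bf_modules (helper57). -/

open Finset

namespace Pool.Agent.H57.BF

open Pool.Agent.H72.BF

theorem hockey (n d : ℕ) : ∑ a ∈ range (d + 1), (n + (d - a)).choose n = (n + 1 + d).choose (n + 1) := by
  induction d with
  | zero => simp
  | succ d ih =>
    rw [Finset.sum_range_succ']
    have h1 : ∀ a ∈ range (d + 1), (n + (d + 1 - (a + 1))).choose n = (n + (d - a)).choose n := by
      intro a _
      rw [Nat.add_sub_add_right]
    rw [Finset.sum_congr rfl h1, ih, Nat.sub_zero, Nat.add_comm ((n + 1 + d).choose (n + 1))]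
    have h2 : n + 1 + (d + 1) = (n + 1 + d) + 1 := by ring
    have h3 : n + (d + 1) = n + 1 + d := by ring
    rw [h2, h3, Nat.choose_succ_succ' (n + 1 + d) n]

theorem hockey2 (n d : ℕ) :
    ∑ a ∈ range (d + 1), a * (n + (d - a)).choose n = (n + 1 + d).choose (n + 2) := by
  induction d with
  | zero => simp
  | succ d ih =>
    rw [Finset.sum_range_succ']
    have h1 : ∀ a ∈ range (d + 1), (a + 1) * (n + (d + 1 - (a + 1))).choose n =
        a * (n + (d - a)).choose n + (n + (d - a)).choose n := by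
      intro a _
      rw [Nat.add_sub_add_right]
      ring
    rw [Finset.sum_congr rfl h1, Finset.sum_add_distrib, ih, hockey, zero_mul, add_zero]
    have h2 : n + 1 + (d + 1) = (n + 1 + d) + 1 := by ring
    rw [h2, Nat.choose_succ_succ' (n + 1 + d) (n + 1), Nat.add_comm]

/-- counting function -/
def cnt (n D d : ℕ) : ℕ := ∑ m : Fin n → Fin (D + 1), if ∑ i, (m i : ℕ) ≤ d then 1 else 0

theorem sum_split (n D : ℕ) (i : Fin (n + 1)) (f : ℕ → ℕ → ℕ) :
    ∑ m : Fin (n + 1) → Fin (D + 1), f (m i) (∑ j, (m j : ℕ)) =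
      ∑ a : Fin (D + 1), ∑ m : Fin n → Fin (D + 1), f a (a + ∑ j, (m j : ℕ)) := by
  rw [← Fintype.sum_prod_type']
  rw [← Equiv.sum_comp (Fin.insertNthEquiv (fun _ => Fin (D + 1)) i)]
  refine Finset.sum_congr rfl fun x _ => ?_
  rw [Fin.sum_univ_succAbove _ i]
  simp

theorem sum_range_if (D d : ℕ) (hd : d ≤ D) (g h : ℕ → ℕ) :
    ∑ a : Fin (D + 1), (if (a : ℕ) ≤ d then h a * g (d - a) else 0) =
      ∑ a ∈ range (d + 1), h a * g (d - a) := by
  rw [Fin.sum_univ_eq_sum_range (fun a => if a ≤ d then h a * g (d - a) else 0) (D + 1)]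
  rw [← Finset.sum_filter]
  refine Finset.sum_congr ?_ fun _ _ => rfl
  ext a
  simp only [mem_filter, mem_range]
  omega

theorem inner (n D d a : ℕ) :
    ∑ m : Fin n → Fin (D + 1), (if a + ∑ i, (m i : ℕ) ≤ d then 1 else 0) =
      if a ≤ d then cnt n D (d - a) else 0 := by
  split_ifs with h
  · refine Finset.sum_congr rfl fun m _ => ?_
    have : (a + ∑ i, (m i : ℕ) ≤ d) ↔ (∑ i, (m i : ℕ) ≤ d - a) := by omega
    simp only [this]
  · refine Finset.sum_eq_zero fun m _ => ?_
    rw [if_neg]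
    omega

theorem cnt_eq (n D : ℕ) : ∀ d ≤ D, cnt n D d = (n + d).choose n := by
  induction n with
  | zero =>
    intro d hd
    simp [cnt]
  | succ n ih =>
    intro d hd
    have h1 := sum_split n D 0 (fun _ s => if s ≤ d then 1 else 0)
    rw [cnt, h1]
    simp only [inner]
    have h2 := sum_range_if D d hd (fun e => cnt n D e) (fun _ => 1)
    simp only [one_mul] at h2
    rw [h2, ← hockey]
    refine Finset.sum_congr rfl fun a ha => ?_
    exact ih _ ((Nat.sub_le _ _).trans hd)

theorem suma : T_SUMA := by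
  constructor
  · intro n d
    rw [Fintype.card_subtype, Finset.card_filter]
    exact cnt_eq n d d le_rfl
  · intro n d i
    have h0 : ∑ m : Mon (n + 1) d, ((m.1 i : ℕ)) =
        ∑ m : Fin (n + 1) → Fin (d + 1), if ∑ j, (m j : ℕ) ≤ d then (m i : ℕ) else 0 := by
      rw [← Finset.sum_filter]
      refine (Finset.sum_subtype _ (fun m => ?_) (fun m : Fin (n + 1) → Fin (d + 1) => (m i : ℕ))).symm
      simp
    have h1 := sum_split n d i (fun a s => if s ≤ d then a else 0)
    rw [h0, h1]
    have h2 : ∀ a : Fin (d + 1), ∑ m : Fin n → Fin (d + 1),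
        (if (a : ℕ) + ∑ j, (m j : ℕ) ≤ d then (a : ℕ) else 0) =
        if (a : ℕ) ≤ d then (a : ℕ) * cnt n d (d - a) else 0 := by
      intro a
      have h3 := inner n d d a
      have h4 : ∑ m : Fin n → Fin (d + 1),
        (if (a : ℕ) + ∑ j, (m j : ℕ) ≤ d then (a : ℕ) else 0) =
          (a : ℕ) * ∑ m : Fin n → Fin (d + 1),
            (if (a : ℕ) + ∑ j, (m j : ℕ) ≤ d then 1 else 0) := by
        rw [Finset.mul_sum]
        refine Finset.sum_congr rfl fun m _ => ?_
        split_ifs <;> simp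
      rw [h4, h3]
      split_ifs <;> simp
    simp only [h2]
    rw [sum_range_if d d le_rfl (fun e => cnt n d e) (fun a => a), ← hockey2]
    refine Finset.sum_congr rfl fun a ha => ?_
    rw [cnt_eq n d _ (Nat.sub_le _ _)]

end Pool.Agent.H57.BF
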