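import Pool.Agent.H72.BF.Targets

/-! Module BF of the board bf_modules (helper57): the Baker-Feldman theorem from the case `b 0 ≠ 0`. -/

open Finset

namespace Pool.Agent.H57.BF

open Pool.Agent.H72.BF

theorem AlgB.mono' {δ : ℕ} {A A' : ℝ} {x : ℂ} (hA : A ≤ A') (h : AlgB δ A x) : AlgB δ A' x := by
  obtain ⟨p, h0, h1, h2, h3⟩ := h
  exact ⟨p, h0, h1, fun i => (h2 i).trans hA, h3⟩

theorem const_case (hR : T_ROOT) {δ : ℕ} {H C : ℝ} (hC : 2 ≤ C) (hH : 2 ≤ H) {x : ℂ}
    (hx : AlgB δ H x) (hx0 : x ≠ 0) : 1 ≤ H ^ C * ‖x‖ := by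
  have h1 := (hR δ H x (by linarith) hx).2 hx0
  have hpos : 0 < ‖x‖ := norm_pos_iff.2 hx0
  have h2 : 1 + H ≤ H ^ C := by
    calc 1 + H ≤ H ^ (2 : ℝ) := by
          rw [Real.rpow_two]
          nlinarith
      _ ≤ H ^ C := Real.rpow_le_rpow_of_exponent_le (by linarith) hC
  calc (1 : ℝ) = ‖x‖⁻¹ * ‖x‖ := (inv_mul_cancel₀ hpos.ne').symm
    _ ≤ H ^ C * ‖x‖ := mul_le_mul_of_nonneg_right (h1.trans h2) hpos.le

theorem bf (h1 : T_BF1) (hR : T_ROOT) : T_BF := by
  intro n lam hli halg δ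
  rcases n with _ | n
  · refine ⟨2, by norm_num, ?_⟩
    intro H hH b0 b hb0 hb hne
    have h0 : b0 ≠ 0 := by
      intro h
      exact hne ⟨h, Subsingleton.elim _ _⟩
    have := const_case hR le_rfl hH hb0 h0
    simpa using this
  · have hLg : ∀ r : Fin (n + 1), Lg n (lam ∘ Equiv.swap 0 r) := by
      intro r
      exact ⟨hli.comp _ (Equiv.injective _), fun j => halg _⟩
    choose Cr hCr hmain using fun r => h1 n (lam ∘ Equiv.swap 0 r) (hLg r) δ
    set C : ℝ := 2 + 3 * ∑ r, Cr r with hC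
    have hsum : 0 ≤ ∑ r, Cr r := Finset.sum_nonneg fun r _ => (hCr r).le
    refine ⟨C, by linarith, ?_⟩
    intro H hH b0 b hb0 hb hne
    by_cases hbz : b = 0
    · have h0 : b0 ≠ 0 := fun h => hne ⟨h, hbz⟩
      have := const_case hR (C := C) (by linarith) hH hb0 h0
      simpa [hbz] using this
    · obtain ⟨r, hr⟩ : ∃ r, b r ≠ 0 := by
        by_contra hcon
        push Not at hcon
        exact hbz (funext hcon)
      have hlogH : Real.log 2 ≤ Real.log H := Real.log_le_log (by norm_num) hH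
      have hlog2 := Real.log_two_gt_d9
      set h : ℕ := ⌈Real.log H⌉₊ with hh
      have hh1 : 1 ≤ h := by
        rw [hh]
        exact Nat.one_le_ceil_iff.2 (by linarith)
      have hle : Real.log H ≤ h := Nat.le_ceil _
      have hlt : (h : ℝ) < Real.log H + 1 := Nat.ceil_lt_add_one (by linarith)
      have hHexp : H ≤ Real.exp h := by
        calc H = Real.exp (Real.log H) := (Real.exp_log (by linarith)).symm
          _ ≤ Real.exp h := Real.exp_le_exp.2 hle
      have hadm : Adm δ n h ⟨b0, b ∘ Equiv.swap 0 r⟩ := by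
        refine ⟨AlgB.mono' hHexp hb0, fun j => AlgB.mono' hHexp (hb _), ?_⟩
        simpa using hr
      have h3 := hmain r h _ hh1 hadm
      have hval : LF.val (⟨b0, b ∘ Equiv.swap 0 r⟩ : LF n) (lam ∘ Equiv.swap 0 r) =
          b0 + ∑ j, b j * lam j := by
        rw [LF.val]
        congr 1
        exact Equiv.sum_comp (Equiv.swap 0 r) (fun j => b j * lam j)
      rw [hval] at h3
      refine h3.trans (mul_le_mul_of_nonneg_right ?_ (norm_nonneg _))
      rw [Real.rpow_def_of_pos (by linarith)]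
      apply Real.exp_le_exp.2
      have h4 : Cr r ≤ ∑ r, Cr r :=
        Finset.single_le_sum (fun i _ => (hCr i).le) (Finset.mem_univ r)
      have h5 : Cr r * h ≤ Cr r * (3 * Real.log H) :=
        mul_le_mul_of_nonneg_left (by linarith) (hCr r).le
      have h6 : Cr r * (3 * Real.log H) ≤ (∑ r, Cr r) * (3 * Real.log H) :=
        mul_le_mul_of_nonneg_right h4 (by linarith)
      have h7 : 0 ≤ Real.log H * 2 := by linarith
      rw [hC]
      nlinarith

end Pool.Agent.H57.BF
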