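import Pool.Agent.H72.BF.Targets

/-! Module BF1 of the board bf_modules (helper57): the main inequality when `b 0 ≠ 0`. -/

open Finset

namespace Pool.Agent.H57.BF

open Pool.Agent.H72.BF

theorem EE_mono (N T L0 : ℕ) {σ σ' : ℝ} (h0 : 0 ≤ σ) (h : σ ≤ σ') :
    EE N T L0 σ ≤ EE N T L0 σ' := by
  unfold EE
  have h1 : Real.log (σ + 2) ≤ Real.log (σ' + 2) := Real.log_le_log (by linarith) (by linarith)
  have h2 : ((L0 : ℝ) + 1) * (1 + Real.log (σ + 2)) ≤ ((L0 : ℝ) + 1) * (1 + Real.log (σ' + 2)) :=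
    mul_le_mul_of_nonneg_left (by linarith) (by positivity)
  have h3 : (N : ℝ) * σ ≤ N * σ' := mul_le_mul_of_nonneg_left h (Nat.cast_nonneg _)
  linarith

theorem bf1 (hAUX : T_AUX) (hSTEP : T_STEP) (hZER : T_ZER) (hPAR : T_PAR) (hROOT : T_ROOT) :
    T_BF1 := by
  intro n lam hL δ
  obtain ⟨D, c, hD, hc, haux⟩ := hAUX n lam hL δ
  obtain ⟨K, hK, hstep⟩ := hSTEP n lam hL δ c hc
  obtain ⟨g, hg, hzer⟩ := hZER n lam hL
  obtain ⟨N, τ, L0, σ, J, hN, hτ, hσ, hKi, hcount, hgN, hJ⟩ := hPAR K n D g hK hD hg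
  have hσi : ∀ i, 1 ≤ σ * 2 ^ i := fun i => Nat.mul_pos hσ (pow_pos two_pos i)
  have hZ : ∀ i, i < J → ∃ Z : ℝ, ∀ (h : ℕ) (B : LF n), 1 ≤ h → Adm δ n h B →
      ‖B.val lam / B.b 0‖ ≤ Real.exp (-(Z * h)) → ∀ p : Idx n N h L0 → ℤ,
      (∀ u, |(p u : ℝ)| ≤ Real.exp (c * (h * EE N (τ * (J + 1)) L0 ((σ * 2 ^ i : ℕ) : ℝ)))) →
      (∀ m : Fin (n + 1) → ℕ, (∀ j, m j ≤ τ * (J - i) + τ) → ∀ s < (σ * 2 ^ i) * h,
        qq lam B p m s = 0) →
      ∀ m : Fin (n + 1) → ℕ, (∀ j, m j ≤ τ * (J - i)) → ∀ s < 2 * (σ * 2 ^ i) * h,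
        qq lam B p m s = 0 := by
    intro i hi
    refine hstep N τ (τ * (J - i)) (τ * (J + 1)) L0 (σ * 2 ^ i) hN hτ ?_ (hσi i) ?_
    · have : τ * (J - i) + τ = τ * (J - i + 1) := by ring
      rw [this]
      exact Nat.mul_le_mul_left _ (by omega)
    · exact hKi i hi.le
  choose! Z hZ using hZ
  have hNR : (1 : ℝ) ≤ N := by exact_mod_cast hN
  have hlogN : 0 ≤ Real.log N := Real.log_nonneg hNR
  set C : ℝ := 3 + Real.log N + ∑ i ∈ range J, |Z i| with hC
  have hsumZ : 0 ≤ ∑ i ∈ range J, |Z i| := Finset.sum_nonneg fun i _ => abs_nonneg _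
  have hCZ : ∀ i < J, Z i + 2 ≤ C := by
    intro i hi
    have h1 : |Z i| ≤ ∑ i ∈ range J, |Z i| :=
      Finset.single_le_sum (f := fun i => |Z i|) (fun i _ => abs_nonneg _) (Finset.mem_range.2 hi)
    have h2 := le_abs_self (Z i)
    linarith
  have hCN : 2 + Real.log N < C := by linarith
  refine ⟨C, by linarith, ?_⟩
  intro h B hh hadm
  by_contra hcon
  push Not at hcon
  have hhR : (1 : ℝ) ≤ h := by exact_mod_cast hh
  have hb0 : B.b 0 ≠ 0 := hadm.h0
  have hinv := (hROOT δ (Real.exp h) (B.b 0) (Real.one_le_exp (by linarith)) (hadm.hb 0)).2 hb0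
  have hval : ‖B.val lam / B.b 0‖ ≤ Real.exp ((2 - C) * h) := by
    have h1 : ‖B.val lam‖ ≤ Real.exp (-(C * h)) := by
      rw [Real.exp_neg, ← one_div, le_div_iff₀ (Real.exp_pos _)]
      linarith
    have h2 : 1 + Real.exp h ≤ Real.exp (2 * h) := by
      have h3 : Real.exp (2 * h) = Real.exp h * Real.exp h := by
        rw [← Real.exp_add]
        ring_nf
      rw [h3]
      have h4 : 2 ≤ Real.exp (h : ℝ) := by
        have := Real.add_one_le_exp (h : ℝ)
        linarith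
      nlinarith
    rw [norm_div, div_eq_mul_inv]
    calc ‖B.val lam‖ * ‖B.b 0‖⁻¹ ≤ Real.exp (-(C * h)) * Real.exp (2 * h) := by
          refine mul_le_mul h1 (hinv.trans h2) (inv_nonneg.2 (norm_nonneg _)) (Real.exp_pos _).le
      _ = Real.exp ((2 - C) * h) := by
          rw [← Real.exp_add]
          ring_nf
  have hN1 : (N : ℝ) * ‖B.val lam / B.b 0‖ < 1 := by
    have h1 : Real.exp ((2 - C) * h) ≤ Real.exp (2 - C) := by
      apply Real.exp_le_exp.2
      nlinarith
    calc (N : ℝ) * ‖B.val lam / B.b 0‖ ≤ N * Real.exp (2 - C) :=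
          mul_le_mul_of_nonneg_left (hval.trans h1) (by linarith)
      _ = Real.exp (Real.log N + (2 - C)) := by
          rw [Real.exp_add, Real.exp_log (by linarith)]
      _ < 1 := by
          rw [Real.exp_lt_one_iff]
          linarith
  obtain ⟨p, hp0, hpb, hp⟩ := haux h B hh hadm N (τ * (J + 1)) L0 σ hN
    (Nat.mul_pos hτ (Nat.succ_pos _)) hσ hcount
  apply hp0
  have hind : ∀ i ≤ J, ∀ m : Fin (n + 1) → ℕ, (∀ j, m j ≤ τ * (J + 1 - i)) →
      ∀ s < σ * 2 ^ i * h, qq lam B p m s = 0 := by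
    intro i
    induction i with
    | zero =>
      intro _ m hm s hs
      refine hp m (fun j => ?_) s ?_
      · simpa using hm j
      · simpa using hs
    | succ i ih =>
      intro hi m hm s hs
      have hi' : i < J := hi
      refine hZ i hi' h B hh hadm ?_ p ?_ ?_ m ?_ s ?_
      · refine hval.trans (Real.exp_le_exp.2 ?_)
        have := hCZ i hi'
        nlinarith
      · intro u
        refine (hpb u).trans (Real.exp_le_exp.2 ?_)
        refine mul_le_mul_of_nonneg_left ?_ hc.le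
        refine mul_le_mul_of_nonneg_left ?_ (by linarith)
        refine EE_mono _ _ _ (Nat.cast_nonneg _) ?_
        have : σ ≤ σ * 2 ^ i := Nat.le_mul_of_pos_right _ (pow_pos two_pos i)
        exact_mod_cast this
      · intro m' hm' s' hs'
        refine ih hi'.le m' (fun j => ?_) s' hs'
        refine (hm' j).trans ?_
        have : τ * (J - i) + τ = τ * (J - i + 1) := by ring
        rw [this]
        exact Nat.mul_le_mul_left _ (by omega)
      · intro j
        refine (hm j).trans ?_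
        exact Nat.mul_le_mul_left _ (by omega)
      · refine lt_of_lt_of_eq hs ?_
        rw [pow_succ]
        ring
  refine hzer h B N τ L0 (σ * 2 ^ J * h) hh hb0 hN hgN ?_ hN1 p ?_
  · calc N ^ (n + 1) * (h * (L0 + 1)) = N ^ (n + 1) * (L0 + 1) * h := by ring
      _ ≤ σ * 2 ^ J * h := Nat.mul_le_mul_right _ hJ
  · intro m hm s hs
    refine hind J le_rfl m (fun j => ?_) s hs
    refine (hm j).trans ?_
    have : J + 1 - J = 1 := by omega
    rw [this, mul_one]

end Pool.Agent.H57.BF
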