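import Pool.Agent.H72.BF.Targets

/-! Modules GRP and SEP of the board bf_modules (helper57). -/

open Finset

namespace Pool.Agent.H57.BF

open Pool.Agent.H72.BF

theorem zlin {n : ℕ} {lam : Fin (n + 1) → ℂ} (hL : Lg n lam) (v : Fin (n + 1) → ℤ)
    (h : ∑ j, (v j : ℂ) * lam j = 0) : v = 0 := by
  have h1 := Fintype.linearIndependent_iff.1 hL.li (fun j => (v j : ℚ)) (by
    rw [← h]
    refine Finset.sum_congr rfl fun j _ => ?_
    rw [Rat.smul_def]
    push_cast
    rfl)
  funext j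
  have := h1 j
  exact_mod_cast this

theorem exp_diff {n : ℕ} {lam : Fin (n + 1) → ℂ} (t t' : Fin (n + 1) → ℕ)
    (h : Complex.exp (∑ j, (t j : ℂ) * lam j) = Complex.exp (∑ j, (t' j : ℂ) * lam j)) :
    ∃ k : ℤ, ∑ j, ((((t j : ℤ) - (t' j : ℤ) : ℤ)) : ℂ) * lam j =
      (k : ℂ) * (2 * Real.pi * Complex.I) := by
  obtain ⟨k, hk⟩ := Complex.exp_eq_exp_iff_exists_int.1 h
  refine ⟨k, ?_⟩
  have : ∑ j, ((((t j : ℤ) - (t' j : ℤ) : ℤ)) : ℂ) * lam j =
      ∑ j, (t j : ℂ) * lam j - ∑ j, (t' j : ℂ) * lam j := by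
    rw [← Finset.sum_sub_distrib]
    refine Finset.sum_congr rfl fun j _ => ?_
    push_cast
    ring
  rw [this, hk]
  ring

theorem grp : T_GRP := by
  intro n lam hL
  set B0 : ℝ := (∑ j, ‖lam j‖) / (2 * Real.pi) with hB0
  have hpi : (0 : ℝ) < 2 * Real.pi := by positivity
  refine ⟨2 * ⌈B0⌉₊ + 1, by omega, ?_⟩
  intro N G hN hG hE
  rcases G.eq_empty_or_nonempty with rfl | ⟨t', ht'⟩
  · simp
  have key : ∀ t ∈ G, ∃ k : ℤ, ∑ j, ((((t j : ℤ) - (t' j : ℤ) : ℤ)) : ℂ) * lam j =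
      (k : ℂ) * (2 * Real.pi * Complex.I) := fun t ht => exp_diff t t' (hE t ht t' ht')
  choose! k hk using key
  have hinj : Set.InjOn k G := by
    intro t ht s hs hts
    have h1 := hk t ht
    have h2 := hk s hs
    rw [hts, ← h2] at h1
    have h3 : ∑ j, ((((t j : ℤ) - (s j : ℤ) : ℤ)) : ℂ) * lam j = 0 := by
      have : ∑ j, ((((t j : ℤ) - (s j : ℤ) : ℤ)) : ℂ) * lam j =
        ∑ j, ((((t j : ℤ) - (t' j : ℤ) : ℤ)) : ℂ) * lam j -
          ∑ j, ((((s j : ℤ) - (t' j : ℤ) : ℤ)) : ℂ) * lam j := by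
        rw [← Finset.sum_sub_distrib]
        refine Finset.sum_congr rfl fun j _ => ?_
        push_cast
        ring
      rw [this, h1, sub_self]
    have h4 := zlin hL (fun j => (t j : ℤ) - (s j : ℤ)) h3
    funext j
    have := congrFun h4 j
    simp only [Pi.zero_apply] at this
    omega
  have hbd : ∀ t ∈ G, |(k t : ℝ)| ≤ B0 * N := by
    intro t ht
    have h1 := congrArg norm (hk t ht)
    have h2 : ‖(k t : ℂ) * (2 * Real.pi * Complex.I)‖ = |(k t : ℝ)| * (2 * Real.pi) := by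
      rw [norm_mul, norm_mul, norm_mul, Complex.norm_I, Complex.norm_intCast]
      simp [abs_of_pos Real.pi_pos]
    rw [h2] at h1
    have h3 : ‖∑ j, ((((t j : ℤ) - (t' j : ℤ) : ℤ)) : ℂ) * lam j‖ ≤ N * ∑ j, ‖lam j‖ := by
      refine (norm_sum_le _ _).trans ?_
      rw [Finset.mul_sum]
      refine Finset.sum_le_sum fun j _ => ?_
      rw [norm_mul]
      refine mul_le_mul_of_nonneg_right ?_ (norm_nonneg _)
      rw [Complex.norm_intCast]
      have ha := hG t ht j
      have hb := hG t' ht' j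
      have : |((t j : ℤ) - (t' j : ℤ))| ≤ (N : ℤ) := by
        rw [abs_le]
        constructor <;> omega
      exact_mod_cast this
    rw [h1] at h3
    rw [hB0, div_mul_eq_mul_div, le_div_iff₀ hpi]
    linarith
  have hmem : ∀ t ∈ G, k t ∈ Finset.Icc (-((⌈B0⌉₊ * N : ℕ) : ℤ)) ((⌈B0⌉₊ * N : ℕ) : ℤ) := by
    intro t ht
    have h1 := hbd t ht
    have h2 : |(k t : ℝ)| ≤ ((⌈B0⌉₊ * N : ℕ) : ℝ) := by
      refine h1.trans ?_
      push_cast
      exact mul_le_mul_of_nonneg_right (Nat.le_ceil _) (Nat.cast_nonneg _)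
    have h3 : |k t| ≤ ((⌈B0⌉₊ * N : ℕ) : ℤ) := by
      exact_mod_cast h2
    rw [Finset.mem_Icc]
    exact abs_le.1 h3
  have h5 := Finset.card_le_card_of_injOn k hmem hinj
  rw [Int.card_Icc] at h5
  refine h5.trans ?_
  have h6 : (((⌈B0⌉₊ * N : ℕ) : ℤ) + 1 - -((⌈B0⌉₊ * N : ℕ) : ℤ)).toNat = 2 * (⌈B0⌉₊ * N) + 1 := by
    omega
  rw [h6]
  nlinarith

theorem sep : T_SEP := by
  intro n lam hL B hB N t t' hN ht ht' hE hg htt
  obtain ⟨k, hk⟩ := exp_diff t t' hE
  set v : Fin (n + 1) → ℤ := fun j => (t j : ℤ) - (t' j : ℤ) with hv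
  have hv0 : v ≠ 0 := by
    intro h
    apply htt
    funext j
    have := congrFun h j
    simp only [hv, Pi.zero_apply] at this
    omega
  have hk' : ∑ j, (v j : ℂ) * lam j = (k : ℂ) * (2 * Real.pi * Complex.I) := hk
  have hk0 : k ≠ 0 := by
    rintro rfl
    apply hv0
    apply zlin hL
    rw [hk']
    simp
  have g0 := congrFun hg 0
  have gs : ∀ j : Fin n, B.b 0 * (v j.succ : ℂ) = B.b j.succ * (v 0 : ℂ) := by
    intro j
    have := congrFun hg j.succ
    simp only [gam, Fin.cases_succ] at this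
    simp only [hv]
    push_cast
    linear_combination this
  have g0' : B.bs * (v 0 : ℂ) = 0 := by
    simp only [gam, Fin.cases_zero] at g0
    simp only [hv]
    push_cast
    linear_combination -g0
  have hv00 : v 0 ≠ 0 := by
    intro h0
    apply hv0
    funext j
    refine Fin.cases ?_ (fun i => ?_) j
    · exact h0
    · have := gs i
      rw [h0] at this
      simp only [Int.cast_zero, mul_zero, mul_eq_zero] at this
      rcases this with h | h
      · exact absurd h hB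
      · exact_mod_cast h
  have hv00' : (v 0 : ℂ) ≠ 0 := by exact_mod_cast hv00
  have hbs : B.bs = 0 := by
    rcases mul_eq_zero.1 g0' with h | h
    · exact h
    · exact absurd h hv00'
  have hall : ∀ j, B.b j * (v 0 : ℂ) = B.b 0 * (v j : ℂ) := by
    intro j
    refine Fin.cases rfl (fun i => ?_) j
    exact (gs i).symm
  have hval : B.val lam / B.b 0 * (v 0 : ℂ) = (k : ℂ) * (2 * Real.pi * Complex.I) := by
    rw [← hk', LF.val, hbs, zero_add, div_mul_eq_mul_div, div_eq_iff hB, Finset.sum_mul,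
      Finset.sum_mul]
    refine Finset.sum_congr rfl fun j _ => ?_
    linear_combination (lam j) * hall j
  have h1 := congrArg norm hval
  have h2 : ‖(k : ℂ) * (2 * Real.pi * Complex.I)‖ = |(k : ℝ)| * (2 * Real.pi) := by
    rw [norm_mul, norm_mul, norm_mul, Complex.norm_I, Complex.norm_intCast]
    simp [abs_of_pos Real.pi_pos]
  rw [h2, norm_mul, Complex.norm_intCast] at h1
  have hk1 : (1 : ℝ) ≤ |(k : ℝ)| := by
    have : (1 : ℤ) ≤ |k| := Int.one_le_abs hk0
    exact_mod_cast this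
  have hvN : |(v 0 : ℝ)| ≤ N := by
    have ha := ht 0
    have hb := ht' 0
    have : |v 0| ≤ (N : ℤ) := by
      simp only [hv]
      rw [abs_le]
      constructor <;> omega
    exact_mod_cast this
  have hpi := Real.pi_gt_three
  have h3 : ‖B.val lam / B.b 0‖ * |(v 0 : ℝ)| ≤ ‖B.val lam / B.b 0‖ * N :=
    mul_le_mul_of_nonneg_left hvN (norm_nonneg _)
  nlinarith

end Pool.Agent.H57.BF
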