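import Pool.Agent.H72.BF.Targets

/-! Module LAG of the board bf_modules (helper57). -/

open Finset

namespace Pool.Agent.H57.BF

open Pool.Agent.H72.BF

theorem lag : T_LAG := by
  classical
  intro n τ T G x P hcard hinj h t0 ht0
  have hj : ∀ t ∈ G.erase t0, ∃ j, x t j ≠ x t0 j := by
    intro t ht
    rw [Finset.mem_erase] at ht
    by_contra hcon
    push Not at hcon
    exact ht.1 (hinj t ht.2 t0 ht0 (funext hcon))
  choose! j hj using hj
  set Q : MvPolynomial (Fin (n + 1)) ℂ :=
    ∏ t ∈ G.erase t0, (MvPolynomial.X (j t) - MvPolynomial.C (x t (j t))) with hQ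
  have hdeg : Q.totalDegree ≤ τ := by
    refine (MvPolynomial.totalDegree_finset_prod _ _).trans ?_
    have h1 : ∑ t ∈ G.erase t0,
        ((MvPolynomial.X (j t) - MvPolynomial.C (x t (j t)) :
          MvPolynomial (Fin (n + 1)) ℂ)).totalDegree ≤ ∑ t ∈ G.erase t0, 1 := by
      refine Finset.sum_le_sum fun t _ => ?_
      refine (MvPolynomial.totalDegree_sub _ _).trans ?_
      rw [MvPolynomial.totalDegree_X, MvPolynomial.totalDegree_C]
      simp
    refine h1.trans ?_
    rw [Finset.sum_const, smul_eq_mul, mul_one, Finset.card_erase_of_mem ht0]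
    omega
  have hlin : ∑ t ∈ G, Polynomial.C (MvPolynomial.eval (x t) Q) * P t = 0 := by
    have h1 : ∀ t ∈ G, Polynomial.C (MvPolynomial.eval (x t) Q) * P t =
        ∑ d ∈ Q.support, Polynomial.C (Q.coeff d) *
          (Polynomial.C (∏ i, x t i ^ d i) * P t) := by
      intro t _
      rw [MvPolynomial.eval_eq', map_sum, Finset.sum_mul]
      refine Finset.sum_congr rfl fun d _ => ?_
      rw [Polynomial.C_mul, mul_assoc]
    rw [Finset.sum_congr rfl h1, Finset.sum_comm]
    refine Finset.sum_eq_zero fun d hd => ?_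
    rw [← Finset.mul_sum, h (fun i => d i) ?_, mul_zero]
    intro i
    refine le_trans ?_ hdeg
    refine le_trans ?_ (MvPolynomial.le_totalDegree hd)
    rw [Finsupp.sum_fintype _ _ (fun _ => rfl)]
    exact Finset.single_le_sum (f := fun i => d i) (fun _ _ => Nat.zero_le _) (Finset.mem_univ i)
  have hother : ∀ t ∈ G, t ≠ t0 → Polynomial.C (MvPolynomial.eval (x t) Q) * P t = 0 := by
    intro t ht htt
    have : MvPolynomial.eval (x t) Q = 0 := by
      rw [hQ, map_prod]
      refine Finset.prod_eq_zero (Finset.mem_erase.2 ⟨htt, ht⟩) ?_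
      simp
    rw [this, Polynomial.C_0, zero_mul]
  rw [Finset.sum_eq_single_of_mem t0 ht0 hother] at hlin
  rcases mul_eq_zero.1 hlin with h1 | h1
  · exfalso
    rw [Polynomial.C_eq_zero, hQ, map_prod, Finset.prod_eq_zero_iff] at h1
    obtain ⟨t, ht, h2⟩ := h1
    apply hj t ht
    simp only [map_sub, MvPolynomial.eval_X, MvPolynomial.eval_C] at h2
    exact (sub_eq_zero.1 h2).symm
  · exact h1

end Pool.Agent.H57.BF
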