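import Mathlib
import Pool.Agent.H72.BF.Targets5

/-!
# Coverings by few subspaces have finite certificates (module CRT)
-/

namespace Pool.Agent.H57.BF5

open Pool.Agent.H72.BF Module

/-- the numbers of test vectors -/
def Nn (s : ℕ) : ℕ → ℕ
  | 0 => 1
  | n + 1 => 1 + s * Nn s n

theorem Nn_pos (s n : ℕ) : 1 ≤ Nn s n := by
  cases n <;> simp [Nn]

theorem finrank_sup_span_lt {k : Type} [Field k] {M : ℕ} (V : Submodule k (Fin M → k)) (b : Fin M → k)
    (hb : b ∉ V) : finrank k (V ⊔ Submodule.span k {b} : Submodule k (Fin M → k)) = finrank k V + 1 := by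
  have h0 : b ≠ 0 := fun h => hb (h ▸ V.zero_mem)
  have h1 : V ⊓ Submodule.span k {b} = ⊥ := by
    rw [eq_bot_iff]
    rintro x ⟨hx1, hx2⟩
    obtain ⟨c, rfl⟩ := Submodule.mem_span_singleton.mp hx2
    by_cases hc : c = 0
    · simp [hc]
    · exact absurd ((V.smul_mem_iff hc).mp hx1) hb
  have h2 := Submodule.finrank_sup_add_finrank_inf_eq V (Submodule.span k {b})
  rw [h1, finrank_bot, finrank_span_singleton h0] at h2
  simpa using h2

theorem core {k : Type} [Field k] {M : ℕ} (s r : ℕ) (B : Set (Fin M → k)) : ∀ (n : ℕ)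
    (U : Fin s → Submodule k (Fin M → k)), (∀ l, finrank k (U l) ≤ r) →
    ∑ l, (r - finrank k (U l)) ≤ n →
    (∀ W : Fin s → Submodule k (Fin M → k), (∀ l, finrank k (W l) ≤ r) → (∀ l, U l ≤ W l) →
      ∃ b ∈ B, ∀ l, b ∉ W l) →
    ∃ F : Finset (Fin M → k), (∀ b ∈ F, b ∈ B) ∧ F.card ≤ Nn s n ∧ F.Nonempty ∧
      ∀ W : Fin s → Submodule k (Fin M → k), (∀ l, finrank k (W l) ≤ r) → (∀ l, U l ≤ W l) →
      ∃ b ∈ F, ∀ l, b ∉ W l := by
  classical
  intro n
  induction n with
  | zero =>
    intro U hU hs hno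
    obtain ⟨b0, hb0, hb⟩ := hno U hU fun l => le_rfl
    refine ⟨{b0}, by simpa using hb0, by simp [Nn], by simp, ?_⟩
    intro W hW hUW
    refine ⟨b0, by simp, fun l => ?_⟩
    have h1 : r - finrank k (U l) = 0 := by
      have := Finset.single_le_sum (f := fun l => r - finrank k (U l)) (fun i _ => Nat.zero_le _)
        (Finset.mem_univ l)
      have h9 : r - finrank k (U l) ≤ ∑ l, (r - finrank k (U l)) := this
      omega
    have h2 : finrank k (W l) ≤ finrank k (U l) := by have := hW l; omega
    have h3 : U l = W l := Submodule.eq_of_le_of_finrank_le (hUW l) h2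
    rw [← h3]; exact hb l
  | succ n ih =>
    intro U hU hs hno
    obtain ⟨b0, hb0, hb⟩ := hno U hU fun l => le_rfl
    -- the enlarged families
    have hex : ∀ l : Fin s, ∃ F : Finset (Fin M → k), (∀ b ∈ F, b ∈ B) ∧ F.card ≤ Nn s n ∧
        (finrank k (U l) < r → ∀ W : Fin s → Submodule k (Fin M → k), (∀ l, finrank k (W l) ≤ r) →
          (∀ l, U l ≤ W l) → b0 ∈ W l → ∃ b ∈ F, ∀ l, b ∉ W l) := by
      intro l
      by_cases hl : finrank k (U l) < r
      · let V : Fin s → Submodule k (Fin M → k) := Function.update U l (U l ⊔ Submodule.span k {b0})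
        have hV0 : V l = U l ⊔ Submodule.span k {b0} := by simp [V]
        have hVl : finrank k (V l) = finrank k (U l) + 1 := by
          rw [hV0]
          exact finrank_sup_span_lt _ _ (hb l)
        have hVo : ∀ i, i ≠ l → V i = U i := fun i hi => by simp [V, hi]
        have hV : ∀ i, finrank k (V i) ≤ r := by
          intro i
          by_cases hi : i = l
          · subst hi; omega
          · rw [hVo i hi]; exact hU i
        have hUV : ∀ i, U i ≤ V i := by
          intro i
          by_cases hi : i = l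
          · subst hi; rw [hV0]; exact le_sup_left
          · rw [hVo i hi]
        have hsum : ∑ i, (r - finrank k (V i)) ≤ n := by
          have h1 : ∑ i, (r - finrank k (V i)) < ∑ i, (r - finrank k (U i)) := by
            apply Finset.sum_lt_sum
            · intro i _
              by_cases hi : i = l
              · subst hi; omega
              · rw [hVo i hi]
            · exact ⟨l, Finset.mem_univ l, by omega⟩
          omega
        obtain ⟨F, hF1, hF2, _, hF3⟩ := ih V hV hsum
          (fun W hW hVW => hno W hW fun i => (hUV i).trans (hVW i))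
        refine ⟨F, hF1, hF2, fun _ W hW hUW hbW => hF3 W hW fun i => ?_⟩
        by_cases hi : i = l
        · subst hi
          rw [hV0]
          exact sup_le (hUW i) ((Submodule.span_singleton_le_iff_mem _ _).mpr hbW)
        · rw [hVo i hi]; exact hUW i
      · exact ⟨∅, by simp, by simp, fun h => absurd h hl⟩
    choose G hG1 hG2 hG3 using hex
    refine ⟨insert b0 (Finset.univ.biUnion G), ?_, ?_, by simp, ?_⟩
    · intro b hbm
      rcases Finset.mem_insert.mp hbm with rfl | hbm
      · exact hb0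
      · obtain ⟨l, _, hl⟩ := Finset.mem_biUnion.mp hbm
        exact hG1 l b hl
    · calc (insert b0 (Finset.univ.biUnion G)).card ≤ (Finset.univ.biUnion G).card + 1 :=
            Finset.card_insert_le _ _
        _ ≤ (∑ l, (G l).card) + 1 := by
            have := Finset.card_biUnion_le (s := Finset.univ) (t := G)
            omega
        _ ≤ (∑ _l : Fin s, Nn s n) + 1 := by
            have := Finset.sum_le_sum (s := Finset.univ) (fun l _ => hG2 l)
            omega
        _ = Nn s (n + 1) := by simp [Nn]; ring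
    · intro W hW hUW
      by_contra hcon
      push Not at hcon
      obtain ⟨l, hl⟩ := hcon b0 (by simp)
      by_cases hr : finrank k (U l) < r
      · obtain ⟨b, hbG, hbW⟩ := hG3 l hr W hW hUW hl
        obtain ⟨l', hl'⟩ := hcon b (Finset.mem_insert_of_mem
          (Finset.mem_biUnion.mpr ⟨l, Finset.mem_univ l, hbG⟩))
        exact hbW l' hl'
      · have h2 : finrank k (W l) ≤ finrank k (U l) := by have := hW l; omega
        have h3 : U l = W l := Submodule.eq_of_le_of_finrank_le (hUW l) h2
        exact hb l (h3 ▸ hl)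

theorem crt : T_CRT := by
  classical
  intro s r
  refine ⟨Nn s (s * r), ?_⟩
  intro k _ M B h
  by_contra hcon
  push Not at hcon
  obtain ⟨F, hF1, hF2, hF3, hF4⟩ := core s r B (s * r) (fun _ => ⊥) (by simp) (by simp)
    (fun W hW _ => hcon W hW)
  obtain ⟨x0, hx0⟩ := hF3
  -- an enumeration of `F` by `Fin N`
  have hsurj : ∃ b : Fin (Nn s (s * r)) → Fin M → k, (∀ i, b i ∈ F) ∧ ∀ x ∈ F, ∃ i, b i = x := by
    have e := F.equivFin
    refine ⟨fun i => if hi : (i : ℕ) < F.card then (F.equivFin.symm ⟨i, hi⟩).1 else x0, ?_, ?_⟩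
    · intro i
      dsimp only
      split_ifs with hi
      · exact (F.equivFin.symm ⟨i, hi⟩).2
      · exact hx0
    · intro x hx
      refine ⟨⟨(F.equivFin ⟨x, hx⟩ : ℕ), lt_of_lt_of_le (F.equivFin ⟨x, hx⟩).2 hF2⟩, ?_⟩
      simp
  obtain ⟨b, hb1, hb2⟩ := hsurj
  obtain ⟨U, hU1, hU2⟩ := h b fun i => hF1 _ (hb1 i)
  obtain ⟨x, hx, hxU⟩ := hF4 U hU1 fun _ => bot_le
  obtain ⟨i, rfl⟩ := hb2 x hx
  obtain ⟨l, hl⟩ := hU2 i
  exact hxU l hl

end Pool.Agent.H57.BF5
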