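import Pool.Agent.H72.BF.Targets2

/-! Module QCL of the board bf_modules (helper57). -/

open Finset

namespace Pool.Agent.H57.BF

open Pool.Agent.H72.BF

theorem fin2_ext {m m' : Fin 2 →₀ ℕ} (h0 : m 0 = m' 0) (h1 : m 1 = m' 1) : m = m' := by
  ext i
  fin_cases i
  · exact h0
  · exact h1

/-- the monomials of degree at most two -/
noncomputable def mo (i j : ℕ) : Fin 2 →₀ ℕ := Finsupp.single 0 i + Finsupp.single 1 j

@[simp] theorem mo_zero (i j : ℕ) : mo i j 0 = i := by simp [mo]

@[simp] theorem mo_one (i j : ℕ) : mo i j 1 = j := by simp [mo]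

theorem mo_inj {i j i' j' : ℕ} (h : mo i j = mo i' j') : i = i' ∧ j = j' := by
  have h0 := DFunLike.congr_fun h 0
  have h1 := DFunLike.congr_fun h 1
  exact ⟨by simpa using h0, by simpa using h1⟩

theorem quad_eq {K F : Type} [Field K] [Field F] [Algebra K F] (Q : MvPolynomial (Fin 2) K)
    (hQ : Q.totalDegree ≤ 2) (x : Fin 2 → F) :
    MvPolynomial.aeval x Q =
      ∑ p ∈ ((range 3) ×ˢ (range 3)).filter (fun p => p.1 + p.2 ≤ 2),
        algebraMap K F (Q.coeff (mo p.1 p.2)) * (x 0 ^ p.1 * x 1 ^ p.2) := by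
  classical
  rw [MvPolynomial.aeval_def, MvPolynomial.eval₂_eq']
  have hinj : Set.InjOn (fun p : ℕ × ℕ => mo p.1 p.2)
      (((range 3) ×ˢ (range 3)).filter (fun p => p.1 + p.2 ≤ 2) : Finset (ℕ × ℕ)) := by
    intro p _ q _ h
    have := mo_inj h
    exact Prod.ext this.1 this.2
  have h1 : ∑ p ∈ ((range 3) ×ˢ (range 3)).filter (fun p => p.1 + p.2 ≤ 2),
        algebraMap K F (Q.coeff (mo p.1 p.2)) * (x 0 ^ p.1 * x 1 ^ p.2) =
      ∑ m ∈ (((range 3) ×ˢ (range 3)).filter (fun p => p.1 + p.2 ≤ 2)).image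
        (fun p : ℕ × ℕ => mo p.1 p.2),
        algebraMap K F (Q.coeff m) * (x 0 ^ m 0 * x 1 ^ m 1) := by
    rw [Finset.sum_image hinj]
    refine Finset.sum_congr rfl fun p _ => ?_
    simp
  rw [h1]
  refine Finset.sum_subset_zero_on_sdiff ?_ ?_ ?_
  · intro m hm
    have h2 := (MvPolynomial.le_totalDegree hm).trans hQ
    rw [Finsupp.sum_fintype _ _ (fun _ => rfl), Fin.sum_univ_two] at h2
    rw [Finset.mem_image]
    refine ⟨(m 0, m 1), ?_, ?_⟩
    · simp only [mem_filter, mem_product, mem_range]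
      omega
    · exact fin2_ext (by simp) (by simp)
  · intro m hm
    rw [Finset.mem_sdiff, MvPolynomial.notMem_support_iff] at hm
    rw [hm.2, map_zero, zero_mul]
  · intro m _
    rw [Fin.prod_univ_two]

theorem quad_eq' {K F : Type} [Field K] [Field F] [Algebra K F] (Q : MvPolynomial (Fin 2) K)
    (hQ : Q.totalDegree ≤ 2) (x y : F) :
    MvPolynomial.aeval ![x, y] Q =
      algebraMap K F (Q.coeff (mo 0 0)) + algebraMap K F (Q.coeff (mo 0 1)) * y +
      algebraMap K F (Q.coeff (mo 0 2)) * y ^ 2 + algebraMap K F (Q.coeff (mo 1 0)) * x +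
      algebraMap K F (Q.coeff (mo 1 1)) * (x * y) + algebraMap K F (Q.coeff (mo 2 0)) * x ^ 2 := by
  rw [quad_eq Q hQ]
  have h : ((range 3) ×ˢ (range 3)).filter (fun p : ℕ × ℕ => p.1 + p.2 ≤ 2) =
      {(0, 0), (0, 1), (0, 2), (1, 0), (1, 1), (2, 0)} := by decide
  rw [h]
  rw [Finset.sum_insert (by decide), Finset.sum_insert (by decide), Finset.sum_insert (by decide),
    Finset.sum_insert (by decide), Finset.sum_insert (by decide), Finset.sum_singleton]
  simp
  ring

theorem quad_ne {K : Type} [Field K] (Q : MvPolynomial (Fin 2) K) (hQ : Q.totalDegree ≤ 2)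
    (h00 : Q.coeff (mo 0 0) = 0) (h01 : Q.coeff (mo 0 1) = 0) (h02 : Q.coeff (mo 0 2) = 0)
    (h10 : Q.coeff (mo 1 0) = 0) (h11 : Q.coeff (mo 1 1) = 0) (h20 : Q.coeff (mo 2 0) = 0) :
    Q = 0 := by
  ext m
  rw [MvPolynomial.coeff_zero]
  by_contra hne
  have hm : m ∈ Q.support := MvPolynomial.mem_support_iff.2 hne
  have h2 := (MvPolynomial.le_totalDegree hm).trans hQ
  rw [Finsupp.sum_fintype _ _ (fun _ => rfl), Fin.sum_univ_two] at h2
  have h3 : m = mo (m 0) (m 1) := fin2_ext (by simp) (by simp)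
  rw [h3] at hne
  have h4 : m 0 ≤ 2 := by omega
  have h5 : m 1 ≤ 2 := by omega
  generalize m 0 = i at *
  generalize m 1 = j at *
  interval_cases i <;> interval_cases j <;> first | omega | exact hne (by assumption)

theorem alg_mem {K F : Type} [Field K] [IsAlgClosed K] [Field F] [Algebra K F] (t : F)
    (p : Polynomial K) (hp : p ≠ 0) (h : Polynomial.aeval t p = 0) :
    ∃ a : K, algebraMap K F a = t := by
  have halg : IsAlgebraic K t := ⟨p, hp, h⟩
  have hint : IsIntegral K t := halg.isIntegral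
  have h2 : Algebra.IsIntegral K (Algebra.adjoin K {t}) :=
    Algebra.IsIntegral.adjoin (by simpa using hint)
  obtain ⟨a, ha⟩ := (IsAlgClosed.algebraMap_bijective_of_isIntegral
    (k := K) (K := Algebra.adjoin K {t})).2 ⟨t, Algebra.self_mem_adjoin_singleton K t⟩
  refine ⟨a, ?_⟩
  have := congrArg Subtype.val ha
  exact this

theorem qcl : T_QCL := by
  intro K F _ _ _ _ _ t y hli ⟨Q, hQ0, hQ2, hQ⟩
  rw [quad_eq' Q hQ2] at hQ
  set G := Q.coeff (mo 0 0) with hG
  set D := Q.coeff (mo 0 1) with hD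
  set A := Q.coeff (mo 0 2) with hA
  set E := Q.coeff (mo 1 0) with hE
  set B := Q.coeff (mo 1 1) with hB
  set C := Q.coeff (mo 2 0) with hC
  by_cases hA0 : A = 0
  · by_cases hDB : D = 0 ∧ B = 0
    · exfalso
      rw [hA0, hDB.1, hDB.2] at hQ
      simp only [map_zero, zero_mul, add_zero] at hQ
      -- `G + E t + C t^2 = 0`
      have hp : (Polynomial.C G + Polynomial.C E * Polynomial.X +
          Polynomial.C C * Polynomial.X ^ 2 : Polynomial K) ≠ 0 := by
        intro h
        apply hQ0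
        have c0 := congrArg (fun p => Polynomial.coeff p 0) h
        have c1 := congrArg (fun p => Polynomial.coeff p 1) h
        have c2 := congrArg (fun p => Polynomial.coeff p 2) h
        simp [Polynomial.coeff_X, Polynomial.coeff_C] at c0 c1 c2
        exact quad_ne Q hQ2 c0 hDB.1 hA0 c1 hDB.2 c2
      obtain ⟨a, ha⟩ := alg_mem t _ hp (by
        simp only [map_add, map_mul, map_pow, Polynomial.aeval_C, Polynomial.aeval_X]
        linear_combination hQ)
      have := Fintype.linearIndependent_iff.1 hli ![-a, 1, 0] (by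
        rw [Fin.sum_univ_three]
        simp [Algebra.smul_def, ha])
      have h1 := this 1
      simp at h1
    · right
      refine ⟨D, B, -G, -E, -C, ?_, ?_⟩
      · by_contra hcon
        push Not at hcon
        exact hDB ⟨hcon.1, hcon.2⟩
      · rw [hA0] at hQ
        simp only [map_zero, zero_mul, add_zero, map_neg] at hQ ⊢
        linear_combination hQ
  · left
    have hA1 : algebraMap K F A ≠ 0 := by
      rw [Ne, FaithfulSMul.algebraMap_eq_zero_iff]
      exact hA0
    have h2 : (2 : K) ≠ 0 := two_ne_zero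
    have h2' : (2 : F) ≠ 0 := by
      have := (FaithfulSMul.algebraMap_injective K F).ne h2
      rwa [map_ofNat, map_zero] at this
    refine ⟨-D / (2 * A), -B / (2 * A), (D / (2 * A)) ^ 2 - G / A,
      2 * (D / (2 * A)) * (B / (2 * A)) - E / A, (B / (2 * A)) ^ 2 - C / A, ?_⟩
    simp only [map_div₀, map_neg, map_mul, map_sub, map_pow, map_ofNat]
    field_simp
    linear_combination 4 * (algebraMap K F A) * hQ

end Pool.Agent.H57.BF
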